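import Pool.Agent.Helper98.FS.Ar
import Pool.Agent.Helper27.FS.Ar1
import Pool.Agent.Helper3.FS.Ar3
import Pool.Agent.Helper47.FS.Fin

/-!
# The arithmetic input for the cyclotomic tower
-/

set_option autoImplicit false

open scoped NumberField Pointwise

namespace Pool.Agent.Helper98.FS

open Pool.Agent.Helper58.FS

theorem dvd_of_mem {Ω : Type*} [Field Ω] (P : Ideal (𝓞 Ω)) (hP : P.IsPrime) {l m : ℕ}
    (hl : l.Prime) (hlP : (l : 𝓞 Ω) ∈ P) (hm : (m : 𝓞 Ω) ∈ P) : l ∣ m := by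
  by_contra h
  have hc : Nat.Coprime l m := (Nat.Prime.coprime_iff_not_dvd hl).2 h
  have h1 : IsCoprime (l : ℤ) (m : ℤ) := Nat.isCoprime_iff_coprime.2 hc
  obtain ⟨a, b, hab⟩ := h1
  have h2 : ((a * l + b * m : ℤ) : 𝓞 Ω) ∈ P := by
    push_cast
    exact P.add_mem (P.mul_mem_left _ hlP) (P.mul_mem_left _ hm)
  rw [hab, Int.cast_one] at h2
  exact hP.ne_top ((Ideal.eq_top_iff_one P).2 h2)

/-- AR4: the arithmetic input holds for the cyclotomic `ℤ_p`-extension of `ℚ`. -/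
theorem arith (p : ℕ) [Fact p.Prime] {Ω : Type*} [Field Ω] [CharZero Ω] [IsAlgClosed Ω]
    [Algebra.IsAlgebraic ℚ Ω] (hp : p ≠ 2) : ArithHyp (Prm Ω) (Cyc Ω p) p := by
  classical
  intro U hN hU
  obtain ⟨N, θ, hN0, hθ⟩ := ar2 U hN hU
  have h3 : ∀ l : ℕ, l.Prime → ∃ F : Set (Prm Ω), F.Finite ∧ ∀ P : Prm Ω, (l : 𝓞 Ω) ∈ P.1 →
      ∃ Q ∈ F, ∃ h ∈ Cyc Ω p ⊓ U, P = h • Q := fun l hl =>
    Pool.Agent.Helper47.FS.ar3c p hp
      (fun l hl hlp P hP => Pool.Agent.Helper3.FS.ar3a p l hl hlp P hP)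
      (fun P hP g n => Pool.Agent.Helper3.FS.ar3b p P hP g n)
      (fun l hl P Q hP hQ => trans l hl P Q hP hQ) l hl U hN hU
  choose! F hF hF' using h3
  refine ⟨⋃ l ∈ (p * N).primeFactors, F l, ?_, fun P => ?_⟩
  · exact Set.Finite.biUnion (Finset.finite_toSet _) fun l hl =>
      hF l (Nat.prime_of_mem_primeFactors hl)
  · have hPp : P.1.IsPrime := P.2.1
    by_cases hm : ((p * N : ℕ) : 𝓞 Ω) ∈ P.1
    · left
      obtain ⟨l, hl, hlP, -⟩ := Pool.Agent.Helper27.FS.exists_char P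
      have hd : l ∣ p * N := dvd_of_mem P.1 hPp hl hlP hm
      have hp0 : p ≠ 0 := (Fact.out : p.Prime).ne_zero
      obtain ⟨Q, hQ, h, hh, he⟩ := hF' l hl P hlP
      refine ⟨Q, ?_, h, hh, he⟩
      rw [Set.mem_iUnion₂]
      exact ⟨l, Nat.mem_primeFactors.2 ⟨hl, hd, mul_ne_zero hp0 hN0⟩, hQ⟩
    · right
      intro h hC hh
      rw [Nat.cast_mul] at hm
      have hpP : (p : 𝓞 Ω) ∉ P.1 := fun h => hm (P.1.mul_mem_right _ h)
      have hNP : (N : 𝓞 Ω) ∉ P.1 := fun h => hm (P.1.mul_mem_left _ h)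
      obtain ⟨e, he, he'⟩ := Pool.Agent.Helper27.FS.ar1 p hp P hpP h hC hh θ
      exact ⟨e, he, hθ P hNP (h ^ e) he'⟩

end Pool.Agent.Helper98.FS
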