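import Pool.Agent.Helper98.FS.Lift
import Pool.Agent.Helper3.FS.Bridge
import Pool.Agent.Helper21.FS.A3
import Pool.Agent.Helper58.FS.CS
import Pool.Agent.Helper58.FS.Inf

/-!
# The arithmetic input for the module of all points of `p`-power order
-/

set_option autoImplicit false
set_option linter.style.haveILetI false

open scoped NumberField Pointwise

namespace Pool.Agent.Helper98.FS

open Pool.Agent.Helper58.FS Pool.Agent.Helper58.IQ

/-- an element of the inertia group fixes the prime -/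
theorem inertia_smul {Ω : Type*} [Field Ω] [CharZero Ω] (P : Prm Ω) (ι : GQ Ω)
    (hι : ∀ x : 𝓞 Ω, ι • x - x ∈ P.1) : ι • P = P := by
  have h1 : ∀ x ∈ P.1, ι • x ∈ P.1 := fun x hx => by
    have := P.1.add_mem (hι x) hx
    rwa [sub_add_cancel] at this
  have h2 : ∀ x ∈ P.1, ι⁻¹ • x ∈ P.1 := fun x hx => by
    have h3 := hι (ι⁻¹ • x)
    rw [smul_inv_smul] at h3
    have := P.1.sub_mem hx h3
    rwa [sub_sub_cancel] at this
  apply Subtype.ext
  change ι • P.1 = P.1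
  apply le_antisymm
  · intro x hx
    have h3 : ι⁻¹ • x ∈ P.1 := by
      have h4 := Ideal.smul_mem_pointwise_smul ι⁻¹ x _ hx
      rwa [inv_smul_smul] at h4
    have h5 := h1 _ h3
    rwa [smul_inv_smul] at h5
  · intro x hx
    have h3 := Ideal.smul_mem_pointwise_smul ι _ _ (h2 x hx)
    rwa [smul_inv_smul] at h3

/-- the arithmetic input for modules on which almost all inertia groups act trivially -/
theorem arith_inf_of {K : Type*} [Field K] [NumberField K] {p : ℕ} [Fact p.Prime] (hp : p ≠ 2)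
    {M : Type*} [AddCommGroup M] (ρ : GK K →* AddMonoid.End M)
    (hnos : ∃ N : ℕ, N ≠ 0 ∧ ∀ P : Ideal (𝓞 (Kb K)), P.IsPrime → P ≠ ⊥ → (N : 𝓞 (Kb K)) ∉ P →
      ∀ g ∈ inert P, ∀ m : M, ρ g m = m) :
    ArithInf (Prm (Kb K)) ((toQ K).range ⊓ Cyc (Kb K) p) (extAct ρ) p := by
  classical
  have hE : Algebra.IsAlgebraic ℚ (Kb K) := .trans ℚ K _
  haveI : IsGalois ℚ (Kb K) := isGal
  haveI : CompactSpace (GQ (Kb K)) := inferInstance
  obtain ⟨N, hN0, hN⟩ := hnos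
  have hro : IsOpen (((toQ K).range : Subgroup (GQ (Kb K))) : Set (GQ (Kb K))) := by
    rw [MonoidHom.range_eq_map]
    exact Pool.Agent.Helper3.FS.isOpen_map ⊤ isOpen_univ
  obtain ⟨V, hVn, hVo, hV⟩ := Pool.Agent.Helper21.FS.exists_open_normal hro
  have h3 : ∀ l : ℕ, l.Prime → ∃ F : Set (Prm (Kb K)), F.Finite ∧ ∀ P : Prm (Kb K),
      (l : 𝓞 (Kb K)) ∈ P.1 → ∃ Q ∈ F, ∃ h ∈ Cyc (Kb K) p ⊓ V, P = h • Q := fun l hl =>
    Pool.Agent.Helper47.FS.ar3c p hp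
      (fun l hl hlp P hP => Pool.Agent.Helper3.FS.ar3a p l hl hlp P hP)
      (fun P hP g n => Pool.Agent.Helper3.FS.ar3b p P hP g n)
      (fun l hl P Q hP hQ => trans l hl P Q hP hQ) l hl V hVn hVo
  choose! F hF hF' using h3
  refine ⟨⋃ l ∈ (p * N).primeFactors, F l, ?_, fun P => ?_⟩
  · exact Set.Finite.biUnion (Finset.finite_toSet _) fun l hl =>
      hF l (Nat.prime_of_mem_primeFactors hl)
  · have hPp : P.1.IsPrime := P.2.1
    by_cases hm : ((p * N : ℕ) : 𝓞 (Kb K)) ∈ P.1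
    · left
      obtain ⟨l, hl, hlP, -⟩ := Pool.Agent.Helper27.FS.exists_char P
      have hd : l ∣ p * N := dvd_of_mem P.1 hPp hl hlP hm
      have hp0 : p ≠ 0 := (Fact.out : p.Prime).ne_zero
      obtain ⟨Q, hQ, h, hh, he⟩ := hF' l hl P hlP
      refine ⟨Q, ?_, h, ⟨hV hh.2, hh.1⟩, he⟩
      rw [Set.mem_iUnion₂]
      exact ⟨l, Nat.mem_primeFactors.2 ⟨hl, hd, mul_ne_zero hp0 hN0⟩, hQ⟩
    · right
      intro U hUn hUo h hh hhP
      rw [Nat.cast_mul] at hm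
      have hpP : (p : 𝓞 (Kb K)) ∉ P.1 := fun h => hm (P.1.mul_mem_right _ h)
      have hNP : (N : 𝓞 (Kb K)) ∉ P.1 := fun h => hm (P.1.mul_mem_left _ h)
      haveI := hUn
      haveI := hVn
      obtain ⟨e, he, ι, hιC, hι, hιU⟩ := inertia_lift p hp P hpP (U ⊓ V) inferInstance
        (hUo.inter hVo) h hh.2 hhP
      have hιr : ι ∈ (toQ K).range := by
        have h5 : ι = (h ^ e * ι⁻¹)⁻¹ * h ^ e := by
          rw [mul_inv_rev, inv_inv, inv_mul_cancel_right]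
        rw [h5]
        exact mul_mem (inv_mem (hV hιU.2)) (pow_mem hh.1 e)
      refine ⟨e, he, ι, ⟨hιr, hιC⟩, inertia_smul P ι hι, ?_, hιU.1⟩
      intro m
      obtain ⟨ι', rfl⟩ := hιr
      rw [extAct_toQ]
      refine hN P.1 hPp P.2.2 hNP ι' ?_ m
      intro x
      exact hι x

/-- D7. -/
theorem arith_inf {K : Type*} [Field K] [NumberField K] {p : ℕ} [Fact p.Prime] (hp : p ≠ 2)
    (W : WeierstrassCurve K)
    (hnos : ∃ N : ℕ, N ≠ 0 ∧ ∀ P : Ideal (𝓞 (Kb K)), P.IsPrime → P ≠ ⊥ → (N : 𝓞 (Kb K)) ∉ P →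
      ∀ g ∈ inert P, ∀ Q : Pts W, Q ∈ torInf p W → ptsRep W g Q = Q) :
    ArithInf (Prm (Kb K)) ((toQ K).range ⊓ Cyc (Kb K) p) (extAct (torInfRep p W)) p := by
  obtain ⟨N, hN0, hN⟩ := hnos
  exact arith_inf_of hp (torInfRep p W)
    ⟨N, hN0, fun P h1 h2 h3 g hg m => Subtype.ext (hN P h1 h2 h3 g hg m.1 m.2)⟩

end Pool.Agent.Helper98.FS
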