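import Pool.Agent.Helper58.FS.Prm

/-!
# Almost all primes are unramified; transitivity on the primes above a prime number
-/

set_option autoImplicit false
set_option linter.style.haveILetI false

open scoped NumberField Pointwise

namespace Pool.Agent.Helper98.FS

open Pool.Agent.Helper58.FS

variable {Ω : Type*} [Field Ω] [CharZero Ω] [IsAlgClosed Ω] [Algebra.IsAlgebraic ℚ Ω]

theorem isGal : IsGalois ℚ Ω := by
  haveI : IsAlgClosure ℚ Ω := ⟨inferInstance, inferInstance⟩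
  exact IsAlgClosure.isGalois ℚ Ω

omit [IsAlgClosed Ω] [Algebra.IsAlgebraic ℚ Ω] in
theorem coe_smul' (h : GQ Ω) (x : 𝓞 Ω) : ((h • x : 𝓞 Ω) : Ω) = h (x : Ω) := rfl

omit [IsAlgClosed Ω] in
theorem orbit_finite (θ : 𝓞 Ω) : {x : 𝓞 Ω | ∃ h : GQ Ω, h • θ = x}.Finite := by
  have h1 : IsIntegral ℚ (θ : Ω) := Algebra.IsIntegral.isIntegral _
  have h2 : ((minpoly ℚ (θ : Ω)).rootSet Ω).Finite := Polynomial.rootSet_finite _ _
  have hinj : Set.InjOn (fun x : 𝓞 Ω => (x : Ω)) {x : 𝓞 Ω | ∃ h : GQ Ω, h • θ = x} :=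
    fun x _ y _ hxy => NumberField.RingOfIntegers.ext hxy
  refine Set.Finite.of_finite_image (f := fun x : 𝓞 Ω => (x : Ω)) (h2.subset ?_) hinj
  rintro _ ⟨x, ⟨h, rfl⟩, rfl⟩
  rw [Polynomial.mem_rootSet]
  refine ⟨minpoly.ne_zero h1, ?_⟩
  show Polynomial.aeval (h (θ : Ω)) (minpoly ℚ (θ : Ω)) = 0
  have h3 := Polynomial.aeval_algHom_apply (h : Ω →ₐ[ℚ] Ω) (θ : Ω) (minpoly ℚ (θ : Ω))
  rw [minpoly.aeval, map_zero] at h3
  exact h3

theorem prim_aux {k K : Type*} [Field k] [Field K] [Algebra k K] (E : IntermediateField k K)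
    [FiniteDimensional k E] [Algebra.IsSeparable k E] :
    ∃ α : E, ∀ h : K ≃ₐ[k] K, h (α : K) = α → h ∈ E.fixingSubgroup := by
  obtain ⟨α, hα⟩ := Field.exists_primitive_element k E
  refine ⟨α, fun h h3 => ?_⟩
  rw [IntermediateField.mem_fixingSubgroup_iff]
  intro x hx
  have key : (IntermediateField.adjoin k {α}).map E.val ≤
      IntermediateField.fixedField (Subgroup.zpowers h) := by
    rw [IntermediateField.adjoin_map, IntermediateField.adjoin_le_iff]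
    rintro _ ⟨y, hy, rfl⟩
    rw [Set.mem_singleton_iff.1 hy]
    show (α : K) ∈ IntermediateField.fixedField (Subgroup.zpowers h)
    rw [IntermediateField.mem_fixedField_iff]
    have h5 : Subgroup.zpowers h ≤ MulAction.stabilizer (K ≃ₐ[k] K) (α : K) := by
      rw [Subgroup.zpowers_le]
      exact h3
    intro g hg
    exact h5 hg
  rw [hα] at key
  have h6 : x ∈ (⊤ : IntermediateField k E).map E.val := ⟨⟨x, hx⟩, trivial, rfl⟩
  have h7 := key h6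
  rw [IntermediateField.mem_fixedField_iff] at h7
  exact h7 h (Subgroup.mem_zpowers h)

omit [IsAlgClosed Ω] in
/-- a primitive integral element for an open subgroup -/
theorem exists_prim (U : Subgroup (GQ Ω)) (hU : IsOpen (U : Set (GQ Ω))) :
    ∃ θ : 𝓞 Ω, ∀ h : GQ Ω, h • θ = θ → h ∈ U := by
  have h1 : (U : Set (GQ Ω)) ∈ nhds (1 : GQ Ω) := hU.mem_nhds U.one_mem
  rw [krullTopology_mem_nhds_one_iff] at h1
  obtain ⟨E, hE, hEU⟩ := h1
  obtain ⟨α, hα⟩ := prim_aux E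
  have hα2 : IsAlgebraic ℤ (α : Ω) := by
    have h2 : IsAlgebraic ℚ (α : Ω) := Algebra.IsAlgebraic.isAlgebraic _
    exact (IsFractionRing.isAlgebraic_iff ℤ ℚ Ω).2 h2
  obtain ⟨n, hn, hi⟩ := hα2.exists_integral_multiple
  obtain ⟨θ, hθ⟩ : ∃ θ : 𝓞 Ω, (θ : Ω) = n • (α : Ω) := ⟨⟨n • (α : Ω), hi⟩, rfl⟩
  refine ⟨θ, fun h hh => hEU (hα h ?_)⟩
  have h4 : h (θ : Ω) = θ := by rw [← coe_smul', hh]
  rw [hθ, map_zsmul, ← sub_eq_zero, ← smul_sub] at h4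
  exact sub_eq_zero.1 ((smul_eq_zero.1 h4).resolve_left hn)

omit [IsAlgClosed Ω] in
theorem ar2 (U : Subgroup (GQ Ω)) (_hN : U.Normal) (hU : IsOpen (U : Set (GQ Ω))) :
    ∃ (N : ℕ) (θ : 𝓞 Ω), N ≠ 0 ∧ ∀ P : Prm Ω, (N : 𝓞 Ω) ∉ P.1 → ∀ h : GQ Ω,
      h • θ - θ ∈ P.1 → h ∈ U := by
  classical
  obtain ⟨θ, hθ⟩ := exists_prim U hU
  let S : Finset (𝓞 Ω) := (orbit_finite θ).toFinset.erase θ
  let δ : 𝓞 Ω := ∏ x ∈ S, (x - θ)
  have hδ : δ ≠ 0 := Finset.prod_ne_zero_iff.2 fun x hx =>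
    sub_ne_zero.2 (Finset.ne_of_mem_erase hx)
  have h1 : (Ideal.span {δ}).comap (algebraMap ℤ (𝓞 Ω)) ≠ ⊥ :=
    Ideal.comap_ne_bot_of_integral_mem hδ (Ideal.mem_span_singleton_self δ)
      (Algebra.IsIntegral.isIntegral δ)
  obtain ⟨n, hn, hn0⟩ := Submodule.exists_mem_ne_zero_of_ne_bot h1
  refine ⟨n.natAbs, θ, Int.natAbs_ne_zero.2 hn0, fun P hP h hh => ?_⟩
  by_contra hU'
  have hne : h • θ ≠ θ := fun h' => hU' (hθ h h')
  have hmem : h • θ ∈ S := Finset.mem_erase.2 ⟨hne, (Set.Finite.mem_toFinset _).2 ⟨h, rfl⟩⟩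
  have h2 : δ ∈ P.1 := by
    obtain ⟨c, hc⟩ := Finset.dvd_prod_of_mem (fun x => x - θ) hmem
    show (∏ x ∈ S, (x - θ)) ∈ P.1
    rw [hc]
    exact P.1.mul_mem_right c hh
  have h3 : algebraMap ℤ (𝓞 Ω) n ∈ P.1 :=
    ((Ideal.span_singleton_le_iff_mem _).2 h2) hn
  apply hP
  have h4 : ((n.natAbs : ℕ) : 𝓞 Ω) = algebraMap ℤ (𝓞 Ω) (n.natAbs : ℤ) := by simp
  rw [h4]
  rcases Int.natAbs_eq n with h5 | h5
  · rw [← h5]
    exact h3
  · have h6 : ((n.natAbs : ℕ) : ℤ) = -n := by omega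
    rw [h6, map_neg]
    exact P.1.neg_mem h3

section Trans

theorem invar : Algebra.IsInvariant ℤ (𝓞 Ω) (GQ Ω) := by
  haveI : IsGalois ℚ Ω := isGal
  refine ⟨fun b hb => ?_⟩
  have h1 : ∀ g : GQ Ω, g (b : Ω) = b := fun g => by rw [← coe_smul', hb]
  obtain ⟨q, hq⟩ := (InfiniteGalois.mem_range_algebraMap_iff_fixed (k := ℚ) (b : Ω)).2 h1
  have h2 : IsIntegral ℤ q := by
    have h3 : IsIntegral ℤ (algebraMap ℚ Ω q) := by rw [hq]; exact b.2
    exact (isIntegral_algebraMap_iff (algebraMap ℚ Ω).injective).1 h3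
  obtain ⟨m, hm⟩ := IsIntegrallyClosed.algebraMap_eq_of_integral h2
  refine ⟨m, NumberField.RingOfIntegers.ext ?_⟩
  rw [← hq, ← hm]
  simp

theorem under_eq (l : ℕ) (hl : l.Prime) (P : Prm Ω) (hP : (l : 𝓞 Ω) ∈ P.1) :
    P.1.under ℤ = Ideal.span {(l : ℤ)} := by
  haveI := P.2.1
  have hmax : (Ideal.span {(l : ℤ)}).IsMaximal :=
    PrincipalIdealRing.isMaximal_of_irreducible (Nat.prime_iff_prime_int.1 hl).irreducible
  refine (hmax.eq_of_le ?_ ?_).symm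
  · exact (inferInstance : (P.1.under ℤ).IsPrime).ne_top
  · rw [Ideal.span_singleton_le_iff_mem]
    show algebraMap ℤ (𝓞 Ω) (l : ℤ) ∈ P.1
    simpa using hP

/-- The group `Ω ≃ₐ[ℚ] Ω` is transitive on the primes above a prime number. -/
theorem trans (l : ℕ) (hl : l.Prime) (P Q : Prm Ω) (hP : (l : 𝓞 Ω) ∈ P.1)
    (hQ : (l : 𝓞 Ω) ∈ Q.1) : ∃ g : GQ Ω, g • P = Q := by
  haveI : IsGalois ℚ Ω := isGal
  letI : TopologicalSpace (𝓞 Ω) := ⊥
  haveI : DiscreteTopology (𝓞 Ω) := ⟨rfl⟩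
  haveI : ContinuousSMul (GQ Ω) (𝓞 Ω) := by
    refine ⟨?_⟩
    rw [continuous_prod_of_discrete_right]
    intro x
    refine IsLocallyConstant.continuous ?_
    rw [IsLocallyConstant.iff_eventually_eq]
    intro g₀
    have h1 : IsOpen {g : GQ Ω | g₀⁻¹ * g ∈ MulAction.stabilizer (GQ Ω) (x : Ω)} :=
      (stabilizer_isOpen_of_isIntegral (K := ℚ) (x : Ω)).preimage (continuous_const_mul g₀⁻¹)
    have h2 : g₀ ∈ {g : GQ Ω | g₀⁻¹ * g ∈ MulAction.stabilizer (GQ Ω) (x : Ω)} := by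
      show g₀⁻¹ * g₀ ∈ MulAction.stabilizer (GQ Ω) (x : Ω)
      rw [inv_mul_cancel]
      exact one_mem _
    filter_upwards [h1.mem_nhds h2] with g hg
    have h3 : (g₀⁻¹ * g) • (x : Ω) = x := hg
    have h4 : g (x : Ω) = g₀ (x : Ω) := by
      rw [mul_smul, inv_smul_eq_iff] at h3
      exact h3
    apply NumberField.RingOfIntegers.ext
    exact h4
  haveI : Algebra.IsInvariant ℤ (𝓞 Ω) (GQ Ω) := invar
  haveI := P.2.1
  haveI := Q.2.1
  obtain ⟨g, hg⟩ := Algebra.IsInvariant.exists_smul_of_under_eq_of_profinite (A := ℤ)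
    (B := 𝓞 Ω) (G := GQ Ω) P.1 Q.1 (by rw [under_eq l hl P hP, under_eq l hl Q hQ])
  exact ⟨g, Subtype.ext hg.symm⟩

end Trans

end Pool.Agent.Helper98.FS
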