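import Pool.Agent.Helper98.FS.Arith
import Pool.Agent.Helper3.FS.Inv

/-!
# Decomposition groups modulo inertia
-/

set_option autoImplicit false
set_option linter.style.haveILetI false

open scoped NumberField Pointwise

namespace Pool.Agent.Helper98.FS

open Pool.Agent.Helper58.FS

section

variable {Ω : Type*} [Field Ω] [CharZero Ω]

theorem smul_mem_of_fix {P : Prm Ω} {h : GQ Ω} (hP : h • P = P) {x : 𝓞 Ω} (hx : x ∈ P.1) :
    h • x ∈ P.1 := by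
  have h1 : h • x ∈ h • P.1 := Ideal.smul_mem_pointwise_smul h x P.1 hx
  have h2 : h • P.1 = P.1 := congrArg Subtype.val hP
  rw [h2] at h1
  exact h1

theorem pow_fix {P : Prm Ω} {h : GQ Ω} (hP : h • P = P) (n : ℕ) : h ^ n • P = P := by
  induction n with
  | zero => rw [pow_zero, one_smul]
  | succ n ih => rw [pow_succ, mul_smul, hP, ih]

theorem pow_congr {P : Prm Ω} {h : GQ Ω} (hP : h • P = P) {θ : 𝓞 Ω} {e : ℕ}
    (he : h ^ e • θ - θ ∈ P.1) (k : ℕ) : h ^ (e * k) • θ - θ ∈ P.1 := by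
  induction k with
  | zero =>
    rw [Nat.mul_zero, pow_zero, one_smul, sub_self]
    exact P.1.zero_mem
  | succ k ih =>
    have h1 : h ^ (e * (k + 1)) • θ - θ = h ^ e • (h ^ (e * k) • θ - θ) + (h ^ e • θ - θ) := by
      rw [smul_sub, ← mul_smul, ← pow_add, Nat.mul_succ, add_comm e]
      ring
    rw [h1]
    exact P.1.add_mem (smul_mem_of_fix (pow_fix hP e) ih) he

end

variable {Ω : Type*} [Field Ω] [CharZero Ω] [IsAlgClosed Ω] [Algebra.IsAlgebraic ℚ Ω]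

theorem exp_fin (p : ℕ) [Fact p.Prime] (hp : p ≠ 2) (P : Prm Ω) (hpP : (p : 𝓞 Ω) ∉ P.1)
    (h : GQ Ω) (hC : h ∈ Cyc Ω p) (hP : h • P = P) (s : Finset (𝓞 Ω)) :
    ∃ e : ℕ, e.Coprime p ∧ ∀ θ ∈ s, h ^ e • θ - θ ∈ P.1 := by
  classical
  induction s using Finset.induction_on with
  | empty => exact ⟨1, Nat.coprime_one_left p, by simp⟩
  | insert a s _ ih =>
    obtain ⟨e, he, hs⟩ := ih
    obtain ⟨f, hf, ha⟩ := Pool.Agent.Helper27.FS.ar1 p hp P hpP h hC hP a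
    refine ⟨e * f, Nat.Coprime.mul_left he hf, fun θ hθ => ?_⟩
    rcases Finset.mem_insert.1 hθ with rfl | hθ
    · rw [mul_comm]
      exact pow_congr hP ha e
    · exact pow_congr hP (hs θ hθ) f

omit [Algebra.IsAlgebraic ℚ Ω] in
/-- an element of the inertia group fixes the `p`-power roots of unity -/
theorem inertia_cyc (p : ℕ) [Fact p.Prime] (P : Prm Ω) (hpP : (p : 𝓞 Ω) ∉ P.1) (ι : GQ Ω)
    (hι : ∀ x : 𝓞 Ω, ι • x - x ∈ P.1) : ι ∈ Cyc Ω p := by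
  have hPp : P.1.IsPrime := P.2.1
  have key : ∀ (n : ℕ) (z : Ω), z ^ p ^ n = 1 → ι z = z := by
    intro n z hz
    have hpos : 0 < p ^ n := pow_pos (Fact.out : p.Prime).pos n
    have hzi : IsIntegral ℤ z := by
      apply IsIntegral.of_pow (n := p ^ n) hpos
      rw [hz]
      exact isIntegral_one
    obtain ⟨w, hw⟩ : ∃ w : 𝓞 Ω, algebraMap (𝓞 Ω) Ω w = z := ⟨⟨z, hzi⟩, rfl⟩
    have hw1 : w ^ p ^ n = 1 := by
      apply FaithfulSMul.algebraMap_injective (𝓞 Ω) Ω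
      rw [map_pow, hw, hz, map_one]
    have hw2 : (ι • w) ^ p ^ n = 1 := by
      rw [← smul_pow', hw1, smul_one]
    have hN : ((p ^ n : ℕ) : 𝓞 Ω) ∉ P.1 := by
      rw [Nat.cast_pow]
      exact fun h => hpP (hPp.mem_of_pow_mem n h)
    have h1 := Pool.Agent.Helper3.FS.roots_inj P.1 hN hw2 hw1 (hι w)
    rw [← hw]
    exact congrArg (algebraMap (𝓞 Ω) Ω) h1
  rw [Pool.Agent.Helper47.FS.mem_Cyc, Pool.Agent.Helper47.FS.psi_apply]
  have h1 : Pool.Agent.Helper47.FS.chi p ι = 1 := by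
    apply Units.ext
    apply PadicInt.ext_of_toZModPow.1
    intro n
    rw [Units.val_one, map_one]
    apply Pool.Agent.Helper47.FS.chi_toZModPow p ι n 1
    intro z hz
    rw [key n z hz]
    rcases Nat.eq_zero_or_pos n with rfl | hn
    · have hz1 : z = 1 := by simpa using hz
      rw [hz1, one_pow]
    · haveI : Fact (1 < p ^ n) := ⟨Nat.one_lt_pow hn.ne' (Fact.out : p.Prime).one_lt⟩
      rw [ZMod.val_one, pow_one]
  rw [h1, one_pow]

/-- D3: decomposition groups modulo inertia. -/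
theorem inertia_lift (p : ℕ) [Fact p.Prime] (hp : p ≠ 2) (P : Prm Ω) (hpP : (p : 𝓞 Ω) ∉ P.1)
    (U : Subgroup (GQ Ω)) (_hN : U.Normal) (hU : IsOpen (U : Set (GQ Ω))) (h : GQ Ω)
    (hC : h ∈ Cyc Ω p) (hP : h • P = P) :
    ∃ e : ℕ, e.Coprime p ∧ ∃ ι : GQ Ω, ι ∈ Cyc Ω p ∧ (∀ x : 𝓞 Ω, ι • x - x ∈ P.1) ∧
      h ^ e * ι⁻¹ ∈ U := by
  classical
  have hPp : P.1.IsPrime := P.2.1
  haveI : IsGalois ℚ Ω := isGal
  obtain ⟨E, hEf, hE⟩ := (krullTopology_mem_nhds_one_iff ℚ Ω _).1 (hU.mem_nhds U.one_mem)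
  haveI := hEf
  haveI : NumberField E := ⟨⟩
  -- generators of the ring of integers of `E`
  obtain ⟨s, hs⟩ := (Module.Finite.fg_top : (⊤ : Submodule ℤ (𝓞 E)).FG)
  obtain ⟨e, he, hes⟩ := exp_fin p hp P hpP h hC hP (s.image (algebraMap (𝓞 E) (𝓞 Ω)))
  have hfix : h ^ e • P = P := pow_fix hP e
  have hall : ∀ x : 𝓞 E, h ^ e • algebraMap (𝓞 E) (𝓞 Ω) x - algebraMap (𝓞 E) (𝓞 Ω) x ∈ P.1 := by
    intro x
    have hx : x ∈ Submodule.span ℤ (s : Set (𝓞 E)) := by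
      rw [hs]
      trivial
    induction hx using Submodule.span_induction with
    | mem y hy => exact hes _ (Finset.mem_image_of_mem _ hy)
    | zero => simp
    | add y z _ _ hy hz =>
      have : h ^ e • algebraMap (𝓞 E) (𝓞 Ω) (y + z) - algebraMap (𝓞 E) (𝓞 Ω) (y + z) =
          (h ^ e • algebraMap (𝓞 E) (𝓞 Ω) y - algebraMap (𝓞 E) (𝓞 Ω) y) +
          (h ^ e • algebraMap (𝓞 E) (𝓞 Ω) z - algebraMap (𝓞 E) (𝓞 Ω) z) := by
        rw [map_add, smul_add]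
        ring
      rw [this]
      exact P.1.add_mem hy hz
    | smul a y _ hy =>
      have : h ^ e • algebraMap (𝓞 E) (𝓞 Ω) (a • y) - algebraMap (𝓞 E) (𝓞 Ω) (a • y) =
          (a : 𝓞 Ω) * (h ^ e • algebraMap (𝓞 E) (𝓞 Ω) y - algebraMap (𝓞 E) (𝓞 Ω) y) := by
        have h1 : h ^ e • (a • algebraMap (𝓞 E) (𝓞 Ω) y) = a • (h ^ e • algebraMap (𝓞 E) (𝓞 Ω) y) :=
          map_zsmul (DistribSMul.toAddMonoidHom (𝓞 Ω) (h ^ e)) a _
        rw [map_zsmul, h1, zsmul_eq_mul, zsmul_eq_mul]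
        ring
      rw [this]
      exact P.1.mul_mem_left _ hy
  -- the automorphism of the residue ring
  let τ : (𝓞 Ω ⧸ P.1) ≃+* (𝓞 Ω ⧸ P.1) :=
    Ideal.quotientEquiv P.1 P.1 (MulSemiringAction.toRingEquiv (GQ Ω) (𝓞 Ω) (h ^ e)) (by
      have h2 : h ^ e • P.1 = P.1 := congrArg Subtype.val hfix
      exact h2.symm)
  have hτ : ∀ x : 𝓞 Ω, τ (Ideal.Quotient.mk P.1 x) = Ideal.Quotient.mk P.1 (h ^ e • x) :=
    fun x => rfl
  let σ : (𝓞 Ω ⧸ P.1) ≃ₐ[𝓞 E ⧸ P.1.under (𝓞 E)] (𝓞 Ω ⧸ P.1) :=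
    AlgEquiv.ofRingEquiv (f := τ) (fun y => by
      obtain ⟨x, rfl⟩ := Ideal.Quotient.mk_surjective y
      have h1 : algebraMap (𝓞 E ⧸ P.1.under (𝓞 E)) (𝓞 Ω ⧸ P.1) (Ideal.Quotient.mk _ x) =
          Ideal.Quotient.mk P.1 (algebraMap (𝓞 E) (𝓞 Ω) x) := rfl
      rw [h1, hτ]
      exact Ideal.Quotient.eq.2 (hall x))
  obtain ⟨g, hgP, hg⟩ := Pool.Agent.Helper3.FS.exists_lift E Ω P.1 σ
  let g' : GQ Ω := AlgEquiv.restrictScalars ℚ g
  have hgU : g' ∈ U := hE (by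
    rw [SetLike.mem_coe, IntermediateField.mem_fixingSubgroup_iff]
    intro x hx
    exact g.commutes ⟨x, hx⟩)
  have hg'P : g' • P = P := Subtype.ext hgP
  have hg'inv : g'⁻¹ • P = P := inv_smul_eq_iff.2 hg'P.symm
  have hι : ∀ x : 𝓞 Ω, (g'⁻¹ * h ^ e) • x - x ∈ P.1 := by
    intro x
    have h1 : Ideal.Quotient.mk P.1 (g • x) = Ideal.Quotient.mk P.1 (h ^ e • x) := hg x
    have h2 : h ^ e • x - g' • x ∈ P.1 := Ideal.Quotient.eq.1 h1.symm
    have h3 := smul_mem_of_fix hg'inv h2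
    rw [smul_sub, inv_smul_smul, ← mul_smul] at h3
    exact h3
  refine ⟨e, he, g'⁻¹ * h ^ e, inertia_cyc p P hpP _ hι, hι, ?_⟩
  rw [mul_inv_rev, inv_inv, mul_inv_cancel_left]
  exact hgU

end Pool.Agent.Helper98.FS
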